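import Mathlib

/-!
# Splitting modulo `p` gives a homomorphism of the ring of integers to `ZMod p`
-/

set_option autoImplicit false

namespace Pool.Agent.H783R3.LW

open Polynomial NumberField

theorem exists_mul_mem_adjoin {L : Type} [Field L] [CharZero L] [Algebra ℚ L] (s : Set L)
    (hs : Algebra.adjoin ℚ s = ⊤) (x : L) :
    ∃ n : ℕ, 0 < n ∧ (n : L) * x ∈ Algebra.adjoin ℤ s := by
  have hx : x ∈ Algebra.adjoin ℚ s := by
    rw [hs]
    exact Algebra.mem_top
  induction hx using Algebra.adjoin_induction with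
  | mem x hx =>
    exact ⟨1, one_pos, by rw [Nat.cast_one, one_mul]; exact Algebra.subset_adjoin hx⟩
  | algebraMap r =>
    refine ⟨r.den, r.den_pos, ?_⟩
    have h1 : (r.den : L) * algebraMap ℚ L r = algebraMap ℤ L r.num := by
      rw [← map_natCast (algebraMap ℚ L) r.den, ← map_mul, mul_comm, Rat.mul_den_eq_num]
      simp
    rw [h1]
    exact Subalgebra.algebraMap_mem _ _
  | add x y _ _ hx hy =>
    obtain ⟨n, hn, h1⟩ := hx
    obtain ⟨k, hk, h2⟩ := hy
    refine ⟨n * k, Nat.mul_pos hn hk, ?_⟩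
    have h3 : ((n * k : ℕ) : L) * (x + y) = (k : L) * ((n : L) * x) + (n : L) * ((k : L) * y) := by
      push_cast
      ring
    rw [h3]
    exact add_mem (mul_mem (natCast_mem _ k) h1) (mul_mem (natCast_mem _ n) h2)
  | mul x y _ _ hx hy =>
    obtain ⟨n, hn, h1⟩ := hx
    obtain ⟨k, hk, h2⟩ := hy
    refine ⟨n * k, Nat.mul_pos hn hk, ?_⟩
    have h3 : ((n * k : ℕ) : L) * (x * y) = ((n : L) * x) * ((k : L) * y) := by
      push_cast
      ring
    rw [h3]
    exact mul_mem h1 h2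

theorem exists_conductor {L : Type} [Field L] [NumberField L] (s : Set L)
    (hs : Algebra.adjoin ℚ s = ⊤) :
    ∃ m : ℕ, 0 < m ∧ ∀ x : 𝓞 L, (m : L) * (x : L) ∈ Algebra.adjoin ℤ s := by
  obtain ⟨t, ht⟩ := (Module.Finite.fg_top : (⊤ : Submodule ℤ (𝓞 L)).FG)
  choose n hn0 hn using fun x : L => exists_mul_mem_adjoin s hs x
  refine ⟨∏ y ∈ t, n (y : L), Finset.prod_pos fun y _ => hn0 _, fun x => ?_⟩
  have hx : x ∈ Submodule.span ℤ (t : Set (𝓞 L)) := by
    rw [ht]
    exact Submodule.mem_top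
  induction hx using Submodule.span_induction with
  | mem y hy =>
    classical
    rw [← Finset.mul_prod_erase t (fun y : 𝓞 L => n (y : L)) hy]
    push_cast
    have h1 : (n (y : L) : L) * (∏ z ∈ t.erase y, (n (z : L) : L)) * (y : L) =
        (∏ z ∈ t.erase y, (n (z : L) : L)) * ((n (y : L) : L) * (y : L)) := by ring
    rw [h1]
    refine mul_mem ?_ (hn _)
    have h2 : (∏ z ∈ t.erase y, (n (z : L) : L)) = ((∏ z ∈ t.erase y, n (z : L) : ℕ) : L) := by
      push_cast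
      rfl
    rw [h2]
    exact natCast_mem _ _
  | zero =>
    have h1 : ((0 : 𝓞 L) : L) = 0 := map_zero _
    rw [h1, mul_zero]
    exact zero_mem _
  | add x y _ _ hx hy =>
    have h1 : ((x + y : 𝓞 L) : L) = (x : L) + (y : L) := map_add _ _ _
    rw [h1, mul_add]
    exact add_mem hx hy
  | smul a x _ hx =>
    have h1 : ((a • x : 𝓞 L) : L) = a • (x : L) := by
      rw [zsmul_eq_mul, zsmul_eq_mul]
      simp
    rw [h1, mul_smul_comm]
    exact Subalgebra.smul_mem _ hx a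

theorem map_eval₂_int {R S : Type} [CommRing R] [CommRing S] (g : R →+* S) (r : R) (f : ℤ[X]) :
    g (eval₂ (Int.castRingHom R) r f) = eval₂ (Int.castRingHom S) (g r) f := by
  rw [hom_eval₂, RingHom.ext_int (g.comp (Int.castRingHom R)) (Int.castRingHom S)]

theorem a2_bwd : ∀ (L : Type) [Field L] [NumberField L] (f : ℤ[X]), f.Monic →
    IsSplittingField ℚ L (f.map (Int.castRingHom ℚ)) →
    ∃ m : ℕ, 0 < m ∧ ∀ p : ℕ, p.Prime → ¬ p ∣ m →
      (f.map (Int.castRingHom (ZMod p))).Splits → Nonempty (𝓞 L →+* ZMod p) := by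
  intro L _ _ f hf hsp
  have hs := IsSplittingField.adjoin_rootSet L (f.map (Int.castRingHom ℚ))
  obtain ⟨m, hm0, hm⟩ := exists_conductor _ hs
  refine ⟨m, hm0, fun p hp hpm hsplit => ?_⟩
  have hpF : Fact p.Prime := ⟨hp⟩
  -- a maximal ideal over `p`
  have hmax : (Ideal.span {(p : ℤ)}).IsMaximal := by
    refine PrincipalIdealRing.isMaximal_of_irreducible ?_
    exact (Nat.prime_iff_prime_int.mp hp).irreducible
  obtain ⟨Q, hQmax, hQ⟩ := Ideal.exists_ideal_over_maximal_of_isIntegral (S := 𝓞 L)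
    (Ideal.span {(p : ℤ)}) (by
      have h1 : RingHom.ker (algebraMap ℤ (𝓞 L)) = ⊥ :=
        (RingHom.injective_iff_ker_eq_bot _).mp (algebraMap ℤ (𝓞 L)).injective_int
      rw [h1]
      exact bot_le)
  have hpQ : (p : 𝓞 L) ∈ Q := by
    have h1 : (p : ℤ) ∈ Q.comap (algebraMap ℤ (𝓞 L)) := by
      rw [hQ]
      exact Ideal.mem_span_singleton_self _
    rw [Ideal.mem_comap] at h1
    simpa using h1
  let _ : Field (𝓞 L ⧸ Q) := Ideal.Quotient.field Q
  have hp0 : ((p : ℕ) : 𝓞 L ⧸ Q) = 0 := by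
    have h1 := Ideal.Quotient.eq_zero_iff_mem.mpr hpQ
    simpa using h1
  have _ : CharP (𝓞 L ⧸ Q) p := (CharP.charP_iff_prime_eq_zero hp).mpr hp0
  let φ : ZMod p →+* 𝓞 L ⧸ Q := ZMod.castHom (dvd_refl p) (𝓞 L ⧸ Q)
  -- roots of `f` are mapped to the image of `φ`
  have hroot : ∀ r : 𝓞 L, eval₂ (Int.castRingHom (𝓞 L)) r f = 0 →
      Ideal.Quotient.mk Q r ∈ φ.range := by
    intro r hr
    have h1 : eval₂ (Int.castRingHom (𝓞 L ⧸ Q)) (Ideal.Quotient.mk Q r) f = 0 := by
      rw [← map_eval₂_int, hr, map_zero]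
    have h3 : eval₂ φ (Ideal.Quotient.mk Q r) (f.map (Int.castRingHom (ZMod p))) = 0 := by
      rw [eval₂_map, RingHom.ext_int (φ.comp (Int.castRingHom (ZMod p)))
        (Int.castRingHom (𝓞 L ⧸ Q)), h1]
    have hmon : (f.map (Int.castRingHom (ZMod p))).Monic := hf.map _
    rw [hsplit.eq_prod_roots_of_monic hmon, eval₂_multiset_prod, Multiset.map_map,
      Multiset.prod_eq_zero_iff, Multiset.mem_map] at h3
    obtain ⟨c, _, hc⟩ := h3
    simp only [Function.comp_apply, eval₂_sub, eval₂_X, eval₂_C] at hc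
    exact ⟨c, (sub_eq_zero.mp hc).symm⟩
  -- the subring of the elements with the residue in the image of `φ`
  let T : Subring (𝓞 L) := φ.range.comap (Ideal.Quotient.mk Q)
  let T' : Subring L := T.map (algebraMap (𝓞 L) L)
  have hle : Algebra.adjoin ℤ ((f.map (Int.castRingHom ℚ)).rootSet L) ≤
      subalgebraOfSubring T' := by
    rw [Algebra.adjoin_le_iff]
    intro r hr
    show r ∈ T'
    have h1 : eval₂ (Int.castRingHom L) r f = 0 := by
      have h2 := (mem_rootSet.mp hr).2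
      rw [aeval_def, eval₂_map, RingHom.ext_int ((algebraMap ℚ L).comp (Int.castRingHom ℚ))
        (Int.castRingHom L)] at h2
      exact h2
    have hint : IsIntegral ℤ r := ⟨f, hf, h1⟩
    obtain ⟨r', hr'⟩ : ∃ r' : 𝓞 L, algebraMap (𝓞 L) L r' = r := ⟨⟨r, hint⟩, rfl⟩
    refine ⟨r', ?_, hr'⟩
    apply hroot
    apply RingOfIntegers.coe_injective
    rw [map_eval₂_int, hr', h1, map_zero]
  have hmp : ((m : ℕ) : ZMod p) ≠ 0 := by
    intro h
    exact hpm ((ZMod.natCast_eq_zero_iff m p).mp h)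
  have hsurj : Function.Surjective φ := by
    intro y
    obtain ⟨x, rfl⟩ := Ideal.Quotient.mk_surjective y
    obtain ⟨t, ht, htx⟩ := hle (hm x)
    have h1 : t = (m : 𝓞 L) * x := by
      apply RingOfIntegers.coe_injective
      rw [htx, map_mul, map_natCast]
    obtain ⟨c, hc⟩ := (ht : Ideal.Quotient.mk Q t ∈ φ.range)
    refine ⟨((m : ℕ) : ZMod p)⁻¹ * c, ?_⟩
    rw [map_mul, hc, h1, map_mul, map_natCast, ← map_natCast φ, ← mul_assoc, ← map_mul,
      inv_mul_cancel₀ hmp, map_one, one_mul]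
  let e : ZMod p ≃+* 𝓞 L ⧸ Q := RingEquiv.ofBijective φ ⟨φ.injective, hsurj⟩
  exact ⟨(e.symm : (𝓞 L ⧸ Q) →+* ZMod p).comp (Ideal.Quotient.mk Q)⟩

end Pool.Agent.H783R3.LW
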