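import Pool.Agent.H866R4.VD.Stmts

/-!
# The graph `(a,b) ~ (c,d) iff b + d = a c` over `ZMod p`
-/

set_option autoImplicit false

open Finset

namespace Pool.Agent.H783R3.VDT

open Pool.Agent.H866R4.VD

/-- the adjacency operator -/
noncomputable def op {p : ℕ} [NeZero p] (z : ZMod p × ZMod p → ℝ) (x : ZMod p × ZMod p) : ℝ :=
  ∑ t : ZMod p, z (t, x.1 * t - x.2)

/-- the adjacency matrix (with diagonal) -/
noncomputable def AA {p : ℕ} (x y : ZMod p × ZMod p) : ℝ :=
  if x.2 + y.2 = x.1 * y.1 then 1 else 0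

theorem sum_AA {p : ℕ} [NeZero p] (z : ZMod p × ZMod p → ℝ) (x : ZMod p × ZMod p) :
    ∑ y, AA x y * z x * z y = z x * op z x := by
  rw [Fintype.sum_prod_type]
  unfold op
  rw [Finset.mul_sum]
  refine Finset.sum_congr rfl (fun t _ => ?_)
  rw [Finset.sum_eq_single (x.1 * t - x.2)]
  · unfold AA
    rw [if_pos (by ring), one_mul]
  · intro u _ hu
    unfold AA
    rw [if_neg, zero_mul, zero_mul]
    intro h
    apply hu
    rw [← show x.2 + u = x.1 * t from h]
    ring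
  · intro h
    exact absurd (Finset.mem_univ _) h

theorem sum_op {p : ℕ} [NeZero p] (z : ZMod p × ZMod p → ℝ) :
    ∑ x, op z x = p * ∑ x, z x := by
  rw [Fintype.sum_prod_type]
  unfold op
  have h1 : ∀ a : ZMod p, ∑ b : ZMod p, ∑ t : ZMod p, z (t, (a, b).1 * t - (a, b).2) =
      ∑ x, z x := by
    intro a
    rw [Finset.sum_comm, Fintype.sum_prod_type]
    refine Finset.sum_congr rfl (fun t _ => ?_)
    exact Equiv.sum_comp (Equiv.subLeft (a * t)) (fun y => z (t, y))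
  rw [Finset.sum_congr rfl (fun a _ => h1 a), Finset.sum_const, Finset.card_univ, ZMod.card,
    nsmul_eq_mul]

theorem op_add_const {p : ℕ} [NeZero p] (w : ZMod p × ZMod p → ℝ) (α : ℝ)
    (x : ZMod p × ZMod p) : op (fun y => α + w y) x = p * α + op w x := by
  unfold op
  rw [Finset.sum_add_distrib, Finset.sum_const, Finset.card_univ, ZMod.card, nsmul_eq_mul]

theorem pair_sum {p : ℕ} [Fact p.Prime] (w : ZMod p × ZMod p → ℝ) (t u : ZMod p) :
    ∑ a : ZMod p, ∑ b : ZMod p, w (t, a * t - b) * w (u, a * u - b) =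
      (∑ y, w (t, y)) * (∑ y, w (u, y)) +
        if t = u then (p * (∑ y, w (t, y) ^ 2) - (∑ y, w (t, y)) * (∑ y, w (u, y))) else 0 := by
  have h1 : ∀ a : ZMod p, ∑ b : ZMod p, w (t, a * t - b) * w (u, a * u - b) =
      ∑ y : ZMod p, w (t, y) * w (u, a * (u - t) + y) := by
    intro a
    rw [← Equiv.sum_comp (Equiv.subLeft (a * t)) (fun y => w (t, y) * w (u, a * (u - t) + y))]
    refine Finset.sum_congr rfl (fun b _ => ?_)
    rw [Equiv.subLeft_apply]
    congr 3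
    ring
  rw [Finset.sum_congr rfl (fun a _ => h1 a)]
  by_cases htu : t = u
  · subst htu
    rw [if_pos rfl]
    have h2 : ∀ a : ZMod p, ∑ y : ZMod p, w (t, y) * w (t, a * (t - t) + y) =
        ∑ y, w (t, y) ^ 2 := by
      intro a
      refine Finset.sum_congr rfl (fun y _ => ?_)
      rw [sub_self, mul_zero, zero_add, sq]
    rw [Finset.sum_congr rfl (fun a _ => h2 a), Finset.sum_const, Finset.card_univ, ZMod.card,
      nsmul_eq_mul]
    ring
  · rw [if_neg htu, add_zero, Finset.sum_comm, Finset.sum_mul]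
    refine Finset.sum_congr rfl (fun y _ => ?_)
    rw [← Finset.mul_sum]
    congr 1
    have hne : u - t ≠ 0 := sub_ne_zero.mpr (Ne.symm htu)
    exact Equiv.sum_comp ((Equiv.mulRight₀ (u - t) hne).trans (Equiv.addRight y))
      (fun y => w (u, y))

theorem sum_op_sq {p : ℕ} [Fact p.Prime] (w : ZMod p × ZMod p → ℝ) (hw : ∑ x, w x = 0) :
    ∑ x, op w x ^ 2 ≤ p * ∑ x, w x ^ 2 := by
  have h1 : ∑ x, op w x ^ 2 = ∑ t : ZMod p, ∑ u : ZMod p,
      ∑ a : ZMod p, ∑ b : ZMod p, w (t, a * t - b) * w (u, a * u - b) := by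
    rw [Fintype.sum_prod_type]
    have h2 : ∀ a b : ZMod p, op w (a, b) ^ 2 =
        ∑ t : ZMod p, ∑ u : ZMod p, w (t, a * t - b) * w (u, a * u - b) := by
      intro a b
      rw [sq]
      unfold op
      rw [Finset.sum_mul_sum]
    rw [Finset.sum_congr rfl (fun a _ => Finset.sum_congr rfl (fun b _ => h2 a b))]
    rw [Finset.sum_congr rfl (fun a _ => Finset.sum_comm), Finset.sum_comm]
    refine Finset.sum_congr rfl (fun t _ => ?_)
    rw [Finset.sum_congr rfl (fun a _ => Finset.sum_comm), Finset.sum_comm]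
  rw [h1, Finset.sum_congr rfl (fun t _ => Finset.sum_congr rfl (fun u _ => pair_sum w t u))]
  simp only [Finset.sum_add_distrib, Finset.sum_ite_eq, Finset.mem_univ, if_true]
  have h3 : ∑ t : ZMod p, ∑ u : ZMod p, (∑ y, w (t, y)) * (∑ y, w (u, y)) = 0 := by
    rw [← Finset.sum_mul_sum, ← Fintype.sum_prod_type, hw, mul_zero]
  rw [h3, zero_add, Fintype.sum_prod_type, Finset.mul_sum]
  refine Finset.sum_le_sum (fun t _ => ?_)
  have := mul_self_nonneg (∑ y, w (t, y))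
  linarith

theorem op_lower {p s : ℕ} [Fact p.Prime] (hps : p ≤ s ^ 2) (w : ZMod p × ZMod p → ℝ)
    (hw : ∑ x, w x = 0) : -(s * ∑ x, w x ^ 2) ≤ ∑ x, w x * op w x := by
  have hp : 0 < p := (Fact.out : p.Prime).pos
  have hs : 0 < s := by
    rcases Nat.eq_zero_or_pos s with h | h
    · subst h; simp at hps; omega
    · exact h
  have hs' : (0 : ℝ) < s := by exact_mod_cast hs
  have hps' : (p : ℝ) ≤ (s : ℝ) ^ 2 := by exact_mod_cast hps
  have h1 := sum_op_sq w hw
  have h2 : 0 ≤ ∑ x, (op w x + s * w x) ^ 2 := Finset.sum_nonneg (fun x _ => sq_nonneg _)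
  have h3 : ∑ x, (op w x + s * w x) ^ 2 = ∑ x, op w x ^ 2 + 2 * s * ∑ x, w x * op w x +
      s ^ 2 * ∑ x, w x ^ 2 := by
    rw [Finset.mul_sum, Finset.mul_sum, ← Finset.sum_add_distrib, ← Finset.sum_add_distrib]
    refine Finset.sum_congr rfl (fun x _ => ?_)
    ring
  have h4 : 0 ≤ ∑ x, w x ^ 2 := Finset.sum_nonneg (fun x _ => sq_nonneg _)
  have h5 : (p : ℝ) * ∑ x, w x ^ 2 ≤ (s : ℝ) ^ 2 * ∑ x, w x ^ 2 :=
    mul_le_mul_of_nonneg_right hps' h4
  have h6 : 0 ≤ 2 * (s : ℝ) * (s * ∑ x, w x ^ 2 + ∑ x, w x * op w x) := by nlinarith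
  have h7 : 0 ≤ (s * ∑ x, w x ^ 2 + ∑ x, w x * op w x) := by
    by_contra h
    push Not at h
    have : 2 * (s : ℝ) * (s * ∑ x, w x ^ 2 + ∑ x, w x * op w x) < 0 :=
      mul_neg_of_pos_of_neg (by linarith) h
    linarith
  linarith

theorem op_lower' {p s : ℕ} [Fact p.Prime] (hps : p ≤ s ^ 2) (z : ZMod p × ZMod p → ℝ) :
    (p + s) / (p : ℝ) ^ 2 * (∑ x, z x) ^ 2 ≤ ∑ x, z x * op z x + s * ∑ x, z x ^ 2 := by
  have hp : 0 < p := (Fact.out : p.Prime).pos
  have hp' : (0 : ℝ) < p := by exact_mod_cast hp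
  obtain ⟨α, hα⟩ : ∃ α : ℝ, α = (∑ x, z x) / (p : ℝ) ^ 2 := ⟨_, rfl⟩
  have hS : ∑ x, z x = α * (p : ℝ) ^ 2 := by
    rw [hα]; field_simp
  obtain ⟨w, hw⟩ : ∃ w : ZMod p × ZMod p → ℝ, w = fun x => z x - α := ⟨_, rfl⟩
  have hz : z = fun y => α + w y := by
    rw [hw]; funext y; ring
  have hcard : (Finset.univ : Finset (ZMod p × ZMod p)).card = p ^ 2 := by
    rw [Finset.card_univ, Fintype.card_prod, ZMod.card, sq]
  have hconst : ∀ c : ℝ, ∑ _x : ZMod p × ZMod p, c = (p : ℝ) ^ 2 * c := by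
    intro c
    rw [Finset.sum_const, hcard, nsmul_eq_mul]
    push_cast
    ring
  have hw0 : ∑ x, w x = 0 := by
    have : ∑ x, z x = (p : ℝ) ^ 2 * α + ∑ x, w x := by
      rw [hz, Finset.sum_add_distrib, hconst]
    rw [hS] at this
    linarith
  have h1 := op_lower hps w hw0
  have h2 : ∑ x, z x * op z x = (p : ℝ) ^ 3 * α ^ 2 + ∑ x, w x * op w x := by
    have h3 : ∀ x, z x * op z x = α * (p * α) + α * op w x + (p * α) * w x + w x * op w x := by
      intro x
      have : op z x = p * α + op w x := by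
        conv_lhs => rw [hz]
        exact op_add_const w α x
      rw [this]
      conv_lhs => rw [hz]
      ring
    rw [Finset.sum_congr rfl (fun x _ => h3 x), Finset.sum_add_distrib, Finset.sum_add_distrib,
      Finset.sum_add_distrib, hconst, ← Finset.mul_sum, ← Finset.mul_sum, sum_op, hw0]
    ring
  have h4 : ∑ x, z x ^ 2 = (p : ℝ) ^ 2 * α ^ 2 + ∑ x, w x ^ 2 := by
    have h5 : ∀ x, z x ^ 2 = α ^ 2 + (2 * α) * w x + w x ^ 2 := by
      intro x
      conv_lhs => rw [hz]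
      ring
    rw [Finset.sum_congr rfl (fun x _ => h5 x), Finset.sum_add_distrib, Finset.sum_add_distrib,
      hconst, ← Finset.mul_sum, hw0]
    ring
  rw [h2, h4, hS]
  have h6 : (p + s) / (p : ℝ) ^ 2 * (α * (p : ℝ) ^ 2) ^ 2 =
      (p : ℝ) ^ 3 * α ^ 2 + s * ((p : ℝ) ^ 2 * α ^ 2) := by
    field_simp
  rw [h6]
  linarith

/-- the graph -/
def T0 (p : ℕ) : SimpleGraph (ZMod p × ZMod p) where
  Adj x y := x ≠ y ∧ x.2 + y.2 = x.1 * y.1
  symm := ⟨fun x y h => ⟨h.1.symm, by rw [add_comm, h.2, mul_comm]⟩⟩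
  loopless := ⟨fun _ h => h.1 rfl⟩

theorem loc_T0 (p : ℕ) [Fact p.Prime] : Loc (T0 p) := by
  intro x y z₁ z₂ hxy h1 h2 h3 h4
  have e1 : x.2 + z₁.2 = x.1 * z₁.1 := h1.2
  have e2 : x.2 + z₂.2 = x.1 * z₂.1 := h2.2
  have e3 : y.2 + z₁.2 = y.1 * z₁.1 := h3.2
  have e4 : y.2 + z₂.2 = y.1 * z₂.1 := h4.2
  have e5 : (x.1 - y.1) * (z₁.1 - z₂.1) = 0 := by
    linear_combination e2 - e1 + e3 - e4
  have e6 : x.1 ≠ y.1 := by
    intro h
    apply hxy.1
    have : x.2 = y.2 := by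
      rw [h] at e1
      linear_combination e1 - e3
    exact Prod.ext h this
  have e7 : z₁.1 = z₂.1 := by
    rcases mul_eq_zero.mp e5 with h | h
    · exact absurd (sub_eq_zero.mp h) e6
    · exact sub_eq_zero.mp h
  have e8 : z₁.2 = z₂.2 := by
    rw [e7] at e1
    linear_combination e1 - e2
  exact Prod.ext e7 e8

theorem gram_T0 (p s κ : ℕ) [Fact p.Prime] (hps : p ≤ s ^ 2) (hκ : κ + 1 = p * s) :
    Gram (T0 p)ᶜ (κ : ℝ) := by
  classical
  have hp2 : 2 ≤ p := (Fact.out : p.Prime).two_le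
  have hs : 0 < s := by
    rcases Nat.eq_zero_or_pos s with h | h
    · subst h; simp at hps; omega
    · exact h
  have hk : 0 < κ := by
    have : 2 * 1 ≤ p * s := Nat.mul_le_mul hp2 hs
    omega
  have hs' : (0 : ℝ) < s := by exact_mod_cast hs
  have hp' : (0 : ℝ) < p := by exact_mod_cast (by omega : 0 < p)
  have hk' : (0 : ℝ) < κ := by exact_mod_cast hk
  have hps' : (p : ℝ) ≤ (s : ℝ) ^ 2 := by exact_mod_cast hps
  have hκ' : (κ : ℝ) + 1 = p * s := by exact_mod_cast hκ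
  obtain ⟨b, hb⟩ : ∃ b : ℝ, b = (1 + 1 / (κ : ℝ)) / (s + 1) := ⟨_, rfl⟩
  have hb0 : 0 < b := by rw [hb]; positivity
  have hb1 : b * (s + 1) = 1 + 1 / (κ : ℝ) := by rw [hb]; field_simp
  refine ⟨fun x y => -(1 / (κ : ℝ)) + b * AA x y +
    (if x = y then (1 + 1 / (κ : ℝ)) - b * AA x x else 0), ?_, ?_, ?_, ?_⟩
  · intro x y
    have h1 : AA x y = AA y x := by
      unfold AA
      rw [add_comm x.2, mul_comm x.1]
    by_cases hxy : x = y
    · subst hxy; rfl
    · simp only [h1, if_neg hxy, if_neg (Ne.symm hxy)]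
  · intro z
    have h1 : Q (fun x y => -(1 / (κ : ℝ)) + b * AA x y +
        (if x = y then (1 + 1 / (κ : ℝ)) - b * AA x x else 0)) z =
        -(1 / (κ : ℝ)) * (∑ x, z x) ^ 2 + b * ∑ x, z x * op z x +
          ∑ x, ((1 + 1 / (κ : ℝ)) - b * AA x x) * z x ^ 2 := by
      unfold Q
      rw [sq (∑ x, z x), Finset.sum_mul_sum, Finset.mul_sum, Finset.mul_sum,
        ← Finset.sum_add_distrib, ← Finset.sum_add_distrib]
      refine Finset.sum_congr rfl (fun x _ => ?_)
      rw [← sum_AA, Finset.mul_sum, Finset.mul_sum]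
      have h2 : ((1 + 1 / (κ : ℝ)) - b * AA x x) * z x ^ 2 =
          ∑ y, (if x = y then ((1 + 1 / (κ : ℝ)) - b * AA x x) * z x ^ 2 else 0) := by
        rw [Finset.sum_ite_eq, if_pos (Finset.mem_univ x)]
      rw [h2, ← Finset.sum_add_distrib, ← Finset.sum_add_distrib]
      refine Finset.sum_congr rfl (fun y _ => ?_)
      by_cases hxy : x = y
      · subst hxy
        simp only [if_true]
        ring
      · simp only [if_neg hxy]
        ring
    rw [h1]
    have h3 : ∑ x, ((1 + 1 / (κ : ℝ)) - b) * z x ^ 2 ≤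
        ∑ x, ((1 + 1 / (κ : ℝ)) - b * AA x x) * z x ^ 2 := by
      refine Finset.sum_le_sum (fun x _ => ?_)
      refine mul_le_mul_of_nonneg_right ?_ (sq_nonneg _)
      have : AA x x ≤ 1 := by
        unfold AA
        split_ifs <;> norm_num
      nlinarith
    rw [← Finset.mul_sum] at h3
    have h4 := op_lower' hps z
    have h5 : (1 + 1 / (κ : ℝ)) - b = b * s := by rw [← hb1]; ring
    rw [h5] at h3
    have h6 : b * ((p + s) / (p : ℝ) ^ 2 * (∑ x, z x) ^ 2) ≤
        b * (∑ x, z x * op z x + s * ∑ x, z x ^ 2) := mul_le_mul_of_nonneg_left h4 hb0.le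
    have h7 : 1 / (κ : ℝ) ≤ b * ((p + s) / (p : ℝ) ^ 2) := by
      have h8 : b = (p * s) / (κ * (s + 1)) := by
        rw [hb, ← hκ']; field_simp
      rw [h8, div_mul_div_comm, div_le_div_iff₀ hk' (by positivity)]
      nlinarith [mul_nonneg (mul_nonneg hk'.le hp'.le) (sub_nonneg.mpr hps')]
    have h9 : 1 / (κ : ℝ) * (∑ x, z x) ^ 2 ≤ b * ((p + s) / (p : ℝ) ^ 2) * (∑ x, z x) ^ 2 :=
      mul_le_mul_of_nonneg_right h7 (sq_nonneg _)
    linarith
  · intro x
    simp
  · intro x y hxy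
    rw [SimpleGraph.compl_adj] at hxy
    have h1 : AA x y = 0 := by
      unfold AA
      rw [if_neg]
      intro h
      exact hxy.2 ⟨hxy.1, h⟩
    simp only [h1, if_neg hxy.1]
    ring

theorem taskT : TaskT := by
  classical
  intro p s κ hp hps hκ
  have hF : Fact p.Prime := ⟨hp⟩
  have hcard : Fintype.card (Fin (p ^ 2)) = Fintype.card (ZMod p × ZMod p) := by
    rw [Fintype.card_fin, Fintype.card_prod, ZMod.card, sq]
  let e : Fin (p ^ 2) ≃ ZMod p × ZMod p := Fintype.equivOfCardEq hcard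
  refine ⟨(T0 p).comap e, ?_, ?_⟩
  · intro x y z₁ z₂ hxy h1 h2 h3 h4
    exact e.injective (loc_T0 p _ _ _ _ hxy h1 h2 h3 h4)
  · obtain ⟨U, hU1, hU2, hU3, hU4⟩ := gram_T0 p s κ hps hκ
    refine ⟨fun x y => U (e x) (e y), fun x y => hU1 _ _, ?_, fun x => hU3 _, ?_⟩
    · intro z
      have h1 := hU2 (fun x => z (e.symm x))
      unfold Q at h1 ⊢
      rw [← Equiv.sum_comp e] at h1
      have h2 : ∀ i : Fin (p ^ 2), ∑ y, U (e i) y * z (e.symm (e i)) * z (e.symm y) =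
          ∑ j, U (e i) (e j) * z i * z j := by
        intro i
        rw [← Equiv.sum_comp e]
        refine Finset.sum_congr rfl (fun j _ => ?_)
        rw [Equiv.symm_apply_apply, Equiv.symm_apply_apply]
      rwa [Finset.sum_congr rfl (fun i _ => h2 i)] at h1
    · intro x y hxy
      apply hU4
      rw [SimpleGraph.compl_adj] at hxy ⊢
      exact ⟨fun h => hxy.1 (e.injective h), fun h => hxy.2 h⟩

end Pool.Agent.H783R3.VDT
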