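import Mathlib

set_option autoImplicit false

namespace Pool.Agent.H783R3

open Set Topology

/-- The predicate defining norms on `ℝ^d` among continuous functions. -/
def IsNrm (d : ℕ) (f : C(Fin d → ℝ, ℝ)) : Prop :=
  (∀ x, f x = 0 → x = 0) ∧ (∀ x y, f (x + y) ≤ f x + f y) ∧
    (∀ (c : ℝ) x, f (c • x) = |c| * f x)

/-- The predicate defining seminorms. -/
def IsSemi (d : ℕ) (f : C(Fin d → ℝ, ℝ)) : Prop :=
  (∀ x y, f (x + y) ≤ f x + f y) ∧ (∀ (c : ℝ) x, f (c • x) = |c| * f x)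

theorem isClosed_semi (d : ℕ) : IsClosed {f : C(Fin d → ℝ, ℝ) | IsSemi d f} := by
  have h1 : {f : C(Fin d → ℝ, ℝ) | IsSemi d f} =
      (⋂ x, ⋂ y, {f : C(Fin d → ℝ, ℝ) | f (x + y) ≤ f x + f y}) ∩
      (⋂ c : ℝ, ⋂ x, {f : C(Fin d → ℝ, ℝ) | f (c • x) = |c| * f x}) := by
    ext f
    simp [IsSemi]
  rw [h1]
  apply IsClosed.inter
  · refine isClosed_iInter fun x => isClosed_iInter fun y => ?_
    exact isClosed_le (continuous_eval_const _)
      ((continuous_eval_const _).add (continuous_eval_const _))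
  · refine isClosed_iInter fun x => isClosed_iInter fun y => ?_
    exact isClosed_eq (continuous_eval_const _)
      (continuous_const.mul (continuous_eval_const _))

theorem semi_nonneg {d : ℕ} {f : C(Fin d → ℝ, ℝ)} (h : IsSemi d f) (x : Fin d → ℝ) :
    0 ≤ f x := by
  have h0 : f 0 = 0 := by
    have := h.2 0 0
    simpa using this
  have h1 := h.1 x ((-1 : ℝ) • x)
  rw [h.2 (-1) x] at h1
  have h2 : x + (-1 : ℝ) • x = 0 := by simp
  rw [h2, h0] at h1
  simp at h1
  linarith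

theorem nrm_iff {d : ℕ} {f : C(Fin d → ℝ, ℝ)} :
    IsNrm d f ↔ IsSemi d f ∧ MapsTo f (Metric.sphere (0 : Fin d → ℝ) 1) (Ioi 0) := by
  constructor
  · intro h
    refine ⟨⟨h.2.1, h.2.2⟩, ?_⟩
    intro x hx
    have hs : IsSemi d f := ⟨h.2.1, h.2.2⟩
    have hnn := semi_nonneg hs x
    rcases hnn.lt_or_eq with h1 | h1
    · exact h1
    · exfalso
      have := h.1 x h1.symm
      rw [this] at hx
      simp at hx
  · rintro ⟨hs, hm⟩
    refine ⟨?_, hs.1, hs.2⟩
    intro x hx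
    by_contra hne
    have hn : ‖x‖ ≠ 0 := by simpa using hne
    have h1 : (‖x‖⁻¹ • x) ∈ Metric.sphere (0 : Fin d → ℝ) 1 := by
      simp [norm_smul, hn]
    have h2 := hm h1
    rw [mem_Ioi, hs.2, hx] at h2
    simp at h2

theorem isOpen_mapsTo_sphere (d : ℕ) (U : Set ℝ) (hU : IsOpen U) :
    IsOpen {f : C(Fin d → ℝ, ℝ) | MapsTo f (Metric.sphere (0 : Fin d → ℝ) 1) U} :=
  ContinuousMap.isOpen_setOfPred_mapsTo (isCompact_sphere _ _) hU

instance baireC (d : ℕ) : BaireSpace {f : C(Fin d → ℝ, ℝ) // IsSemi d f} := by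
  have : CompleteSpace {f : C(Fin d → ℝ, ℝ) // IsSemi d f} :=
    (isClosed_semi d).completeSpace_coe
  have : (uniformity {f : C(Fin d → ℝ, ℝ) // IsSemi d f}).IsCountablyGenerated := by
    rw [uniformity_subtype]
    exact Filter.comap.isCountablyGenerated _ _
  infer_instance

theorem baire_nrm (d : ℕ) : BaireSpace {f : C(Fin d → ℝ, ℝ) // IsNrm d f} := by
  let p : {f : C(Fin d → ℝ, ℝ) // IsNrm d f} → {f : C(Fin d → ℝ, ℝ) // IsSemi d f} :=
    fun f => ⟨f.1, f.2.2.1, f.2.2.2⟩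
  have hp : IsOpenEmbedding p := by
    refine ⟨?_, ?_⟩
    · refine ⟨?_, ?_⟩
      · refine ⟨?_⟩
        rw [instTopologicalSpaceSubtype, instTopologicalSpaceSubtype, induced_compose]
        rfl
      · intro a b hab
        have := congrArg Subtype.val hab
        exact Subtype.ext this
    · have : range p = Subtype.val ⁻¹'
          {f : C(Fin d → ℝ, ℝ) | MapsTo f (Metric.sphere (0 : Fin d → ℝ) 1) (Ioi 0)} := by
        ext f
        constructor
        · rintro ⟨g, rfl⟩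
          exact (nrm_iff.1 g.2).2
        · intro h
          exact ⟨⟨f.1, nrm_iff.2 ⟨f.2, h⟩⟩, rfl⟩
      rw [this]
      exact (isOpen_mapsTo_sphere d _ isOpen_Ioi).preimage continuous_subtype_val
  exact hp.baireSpace

end Pool.Agent.H783R3
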