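import Mathlib

set_option autoImplicit false

namespace Pool.Agent.H783R3

section rhombus

variable {V : Type*} [AddCommGroup V] [Module ℝ V] (N : V → ℝ)

theorem conv_le (tri : ∀ x y, N (x + y) ≤ N x + N y)
    (hom : ∀ (c : ℝ) x, N (c • x) = |c| * N x) (x y : V) {s t : ℝ} (hs : 0 ≤ s) (ht : 0 ≤ t) :
    N (s • x + t • y) ≤ s * N x + t * N y := by
  have h := tri (s • x) (t • y)
  rw [hom, hom, abs_of_nonneg hs, abs_of_nonneg ht] at h
  exact h

theorem neg_eq (hom : ∀ (c : ℝ) x, N (c • x) = |c| * N x) (x : V) : N (-x) = N x := by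
  have h := hom (-1) x
  simpa using h

theorem hex_int (tri : ∀ x y, N (x + y) ≤ N x + N y)
    (hom : ∀ (c : ℝ) x, N (c • x) = |c| * N x) (u b : V) (hu : N u = 1) (hb : N b = 1)
    (hbu : N (b - u) = 1) {α β : ℝ} (h0 : 0 < β) (h1 : β < 1) (h2 : -1 < α) (h3 : α < 1 - β) :
    N (α • u + β • b) < 1 := by
  rcases le_or_gt 0 α with hα | hα
  · have h := conv_le N tri hom u b hα h0.le
    rw [hu, hb] at h
    linarith
  · rcases le_or_gt 0 (α + β) with hs | hs
    · have h := conv_le N tri hom (b - u) b (s := -α) (t := α + β) (by linarith) hs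
      rw [hbu, hb] at h
      have e : (-α) • (b - u) + (α + β) • b = α • u + β • b := by
        rw [smul_sub, neg_smul, neg_smul, add_smul]
        abel
      rw [e] at h
      linarith
    · have h := conv_le N tri hom (b - u) (-u) (s := β) (t := -(α + β)) h0.le (by linarith)
      rw [hbu, neg_eq N hom, hu] at h
      have e : β • (b - u) + (-(α + β)) • (-u) = α • u + β • b := by
        rw [smul_sub, neg_smul, smul_neg, neg_neg, add_smul]
        abel
      rw [e] at h
      linarith

theorem case_lt (tri : ∀ x y, N (x + y) ≤ N x + N y)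
    (hom : ∀ (c : ℝ) x, N (c • x) = |c| * N x) (u b : V) (hu : N u = 1) (hb : N b = 1)
    (hbu : N (b - u) = 1) {α β : ℝ} (h0 : 0 < β) (h1 : β < 1)
    (h : N (α • u + β • b) = 1) (h' : N ((α - 1) • u + β • b) = 1) : False := by
  have hp : N (β • b) = β := by rw [hom, hb, abs_of_pos h0, mul_one]
  by_cases c1 : α ≤ -1
  · -- (α, β) is between (α - 1, β) and (0, β)
    have hd : (0 : ℝ) < 1 - α := by linarith
    have hc := conv_le N tri hom ((α - 1) • u + β • b) (β • b)
      (s := -α / (1 - α)) (t := 1 / (1 - α)) (div_nonneg (by linarith) hd.le)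
      (div_nonneg zero_le_one hd.le)
    have e : (-α / (1 - α)) • ((α - 1) • u + β • b) + (1 / (1 - α)) • (β • b)
        = α • u + β • b := by
      rw [smul_add, smul_smul, smul_smul, smul_smul, add_assoc, ← add_smul]
      congr 2
      · field_simp
        ring
      · field_simp
        ring
    rw [e, h, h', hp] at hc
    have : -α / (1 - α) * 1 + 1 / (1 - α) * β < 1 := by
      rw [mul_one, div_mul_eq_mul_div, one_mul, ← add_div, div_lt_one hd]
      linarith
    linarith
  · push Not at c1
    by_cases c2 : α < 1 - β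
    · have := hex_int N tri hom u b hu hb hbu h0 h1 c1 c2
      linarith
    · push Not at c2
      by_cases c3 : α < 2 - β
      · have := hex_int N tri hom u b hu hb hbu (α := α - 1) h0 h1 (by linarith) (by linarith)
        linarith
      · push Not at c3
        have hd : (0 : ℝ) < α := by linarith
        have hc := conv_le N tri hom (α • u + β • b) (β • b)
          (s := (α - 1) / α) (t := 1 / α) (div_nonneg (by linarith) hd.le)
          (div_nonneg zero_le_one hd.le)
        have e : ((α - 1) / α) • (α • u + β • b) + (1 / α) • (β • b)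
            = (α - 1) • u + β • b := by
          rw [smul_add, smul_smul, smul_smul, smul_smul, add_assoc, ← add_smul]
          congr 2
          · field_simp
          · field_simp
            ring
        rw [e, h, h', hp] at hc
        have : (α - 1) / α * 1 + 1 / α * β < 1 := by
          rw [mul_one, div_mul_eq_mul_div, one_mul, ← add_div, div_lt_one hd]
          linarith
        linarith

theorem case_pos (tri : ∀ x y, N (x + y) ≤ N x + N y)
    (hom : ∀ (c : ℝ) x, N (c • x) = |c| * N x) (u b : V) (hu : N u = 1) (hb : N b = 1)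
    (hbu : N (b - u) = 1) (hmid : N (b - (1 / 2 : ℝ) • u) < 1) {α β : ℝ} (h0 : 0 < β)
    (h : N (α • u + β • b) = 1) (h' : N ((α - 1) • u + β • b) = 1) : α = 0 ∧ β = 1 := by
  rcases lt_trichotomy β 1 with h1 | h1 | h1
  · exact (case_lt N tri hom u b hu hb hbu h0 h1 h h').elim
  · subst h1
    refine ⟨?_, rfl⟩
    rw [one_smul] at h h'
    by_contra hα
    rcases lt_or_gt_of_ne hα with hα | hα
    · -- b - u between b - u/2 and b + (α-1) u
      have hd : (0 : ℝ) < 1 - 2 * α := by linarith
      have hc := conv_le N tri hom (b - (1 / 2 : ℝ) • u) ((α - 1) • u + b)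
        (s := -2 * α / (1 - 2 * α)) (t := 1 / (1 - 2 * α)) (div_nonneg (by linarith) hd.le)
        (div_nonneg zero_le_one hd.le)
      have e : (-2 * α / (1 - 2 * α)) • (b - (1 / 2 : ℝ) • u)
          + (1 / (1 - 2 * α)) • ((α - 1) • u + b) = b - u := by
        have e1 : (-2 * α / (1 - 2 * α)) • (b - (1 / 2 : ℝ) • u)
          + (1 / (1 - 2 * α)) • ((α - 1) • u + b) =
          (-2 * α / (1 - 2 * α) + 1 / (1 - 2 * α)) • b
          + ((1 / (1 - 2 * α)) * (α - 1) - (-2 * α / (1 - 2 * α)) * (1 / 2)) • u := by
          module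
        rw [e1]
        have e2 : (-2 * α / (1 - 2 * α) + 1 / (1 - 2 * α)) = 1 := by
          field_simp
          ring
        have e3 : ((1 / (1 - 2 * α)) * (α - 1) - (-2 * α / (1 - 2 * α)) * (1 / 2)) = -1 := by
          field_simp
          ring
        rw [e2, e3, one_smul, neg_one_smul, sub_eq_add_neg]
      rw [e, hbu, h'] at hc
      have hs : 0 < -2 * α / (1 - 2 * α) := div_pos (by linarith) hd
      have hst : -2 * α / (1 - 2 * α) + 1 / (1 - 2 * α) = 1 := by
        field_simp
        ring
      nlinarith
    · -- b between b - u/2 and b + α u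
      have hd : (0 : ℝ) < 1 + 2 * α := by linarith
      have hc := conv_le N tri hom (b - (1 / 2 : ℝ) • u) (α • u + b)
        (s := 2 * α / (1 + 2 * α)) (t := 1 / (1 + 2 * α)) (div_nonneg (by linarith) hd.le)
        (div_nonneg zero_le_one hd.le)
      have e : (2 * α / (1 + 2 * α)) • (b - (1 / 2 : ℝ) • u)
          + (1 / (1 + 2 * α)) • (α • u + b) = b := by
        have e1 : (2 * α / (1 + 2 * α)) • (b - (1 / 2 : ℝ) • u)
          + (1 / (1 + 2 * α)) • (α • u + b) =
          (2 * α / (1 + 2 * α) + 1 / (1 + 2 * α)) • b
          + ((1 / (1 + 2 * α)) * α - (2 * α / (1 + 2 * α)) * (1 / 2)) • u := by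
          module
        rw [e1]
        have e2 : (2 * α / (1 + 2 * α) + 1 / (1 + 2 * α)) = 1 := by
          field_simp
          ring
        have e3 : ((1 / (1 + 2 * α)) * α - (2 * α / (1 + 2 * α)) * (1 / 2)) = 0 := by
          field_simp
          ring
        rw [e2, e3, one_smul, zero_smul, add_zero]
      rw [e, hb, h] at hc
      have hs : 0 < 2 * α / (1 + 2 * α) := div_pos (by linarith) hd
      have hst : 2 * α / (1 + 2 * α) + 1 / (1 + 2 * α) = 1 := by
        field_simp
        ring
      nlinarith
  · -- β > 1 : exchange the roles of b and c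
    exfalso
    have hβ : β ≠ 0 := h0.ne'
    have hc' : N (α • u + β • b - u) = 1 := by
      refine Eq.trans ?_ h'
      congr 1
      module
    refine case_lt N tri hom u (α • u + β • b) hu h hc' (α := -α / β) (β := 1 / β)
      (by positivity) (by rw [div_lt_one h0]; exact h1) ?_ ?_
    · refine Eq.trans ?_ hb
      congr 1
      have e1 : (-α / β) • u + (1 / β) • (α • u + β • b) =
          (-α / β + (1 / β) * α) • u + ((1 / β) * β) • b := by module
      rw [e1]
      have e2 : (-α / β + (1 / β) * α) = 0 := by ring
      have e3 : (1 / β) * β = 1 := by field_simp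
      rw [e2, e3, zero_smul, one_smul, zero_add]
    · refine Eq.trans ?_ hbu
      congr 1
      have e1 : (-α / β - 1) • u + (1 / β) • (α • u + β • b) =
          (-α / β + (1 / β) * α - 1) • u + ((1 / β) * β) • b := by module
      rw [e1]
      have e2 : (-α / β + (1 / β) * α - 1) = -1 := by ring
      have e3 : (1 / β) * β = 1 := by field_simp
      rw [e2, e3, neg_one_smul, one_smul, neg_add_eq_sub]

/-- Two unit circles with centres at distance one meet in exactly two points, as soon as the
third side midpoint is interior. -/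
theorem rhombus_comb (tri : ∀ x y, N (x + y) ≤ N x + N y)
    (hom : ∀ (c : ℝ) x, N (c • x) = |c| * N x) (u b c : V) (hu : N u = 1) (hb : N b = 1)
    (hbu : N (b - u) = 1) (hmid : N (b - (1 / 2 : ℝ) • u) < 1) (hc : N c = 1)
    (hcu : N (c - u) = 1) (hne : b ≠ c) {α β : ℝ} (hcomb : c = α • u + β • b) :
    c = u - b := by
  have h' : N ((α - 1) • u + β • b) = 1 := by
    refine Eq.trans ?_ hcu
    rw [hcomb]
    congr 1
    module
  have h : N (α • u + β • b) = 1 := by rw [← hcomb]; exact hc
  rcases lt_trichotomy β 0 with hβ | hβ | hβ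
  · have := case_pos N tri hom u b hu hb hbu hmid (α := 1 - α) (β := -β) (by linarith)
      (by
        refine Eq.trans ?_ h'
        rw [← neg_eq N hom]
        congr 1
        module)
      (by
        refine Eq.trans ?_ h
        rw [← neg_eq N hom]
        congr 1
        module)
    have h1 : α = 1 := by linarith [this.1]
    have h2 : β = -1 := by linarith [this.2]
    rw [hcomb, h1, h2, one_smul, neg_one_smul, sub_eq_add_neg]
  · exfalso
    subst hβ
    rw [zero_smul, add_zero, hom, hu, mul_one] at h h'
    rcases (abs_eq (zero_le_one)).1 h with h1 | h1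
    · rw [h1] at h'
      norm_num at h'
    · rw [h1] at h'
      norm_num at h'
  · exfalso
    have := case_pos N tri hom u b hu hb hbu hmid hβ h h'
    apply hne
    rw [hcomb, this.1, this.2, zero_smul, one_smul, zero_add]

end rhombus

end Pool.Agent.H783R3
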