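import Mathlib
import Pool.Agent.H783R3.ZeroOneRhombus

set_option autoImplicit false

namespace Pool.Agent.H783R3

open Set

/-- Edge list: a strip of six triangles and a path of length three. -/
def edgeL : List (ℕ × ℕ) :=
  [(0,1),(0,2),(1,2),(1,3),(2,3),(2,4),(3,4),(3,5),(4,5),(3,6),(5,6),(5,7),(6,7),(0,8),(8,9),(7,9)]

/-- The graph on ten vertices. -/
def HG : SimpleGraph (Fin 10) :=
  SimpleGraph.fromRel (fun i j => (i.val, j.val) ∈ edgeL)

theorem HG_adj_of (i j : Fin 10) (h : (i.val, j.val) ∈ edgeL) : HG.Adj i j := by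
  rw [HG, SimpleGraph.fromRel_adj]
  refine ⟨?_, Or.inl h⟩
  revert i j
  decide

theorem HG_adj_elim {i j : Fin 10} (h : HG.Adj i j) :
    (i.val, j.val) ∈ edgeL ∨ (j.val, i.val) ∈ edgeL := by
  rw [HG, SimpleGraph.fromRel_adj] at h
  exact h.2

section near_euclid

variable (N : (Fin 2 → ℝ) → ℝ)

theorem euclid_rhombus (tri : ∀ x y, N (x + y) ≤ N x + N y)
    (hom : ∀ (c : ℝ) x, N (c • x) = |c| * N x) (nn : ∀ x, 0 ≤ N x)
    (lo : ∀ x : Fin 2 → ℝ, (98 / 100) * (x 0 ^ 2 + x 1 ^ 2) ≤ N x ^ 2)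
    (hi : ∀ x : Fin 2 → ℝ, N x ^ 2 ≤ (102 / 100) * (x 0 ^ 2 + x 1 ^ 2))
    (P Q R R' : Fin 2 → ℝ) (h1 : N (Q - P) = 1) (h2 : N (R - P) = 1) (h3 : N (R - Q) = 1)
    (h4 : N (R' - P) = 1) (h5 : N (R' - Q) = 1) (hne : R ≠ R') : R' = P + Q - R := by
  have l1 := lo (Q - P)
  have l2 := lo (R - P)
  have l3 := lo (R - Q)
  have u1 := hi (Q - P)
  have u2 := hi (R - P)
  have u3 := hi (R - Q)
  rw [h1] at l1 u1
  rw [h2] at l2 u2
  rw [h3] at l3 u3
  simp only [Pi.sub_apply] at l1 l2 l3 u1 u2 u3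
  set u0 := Q 0 - P 0 with hu0
  set u1' := Q 1 - P 1 with hu1
  set b0 := R 0 - P 0 with hb0
  set b1 := R 1 - P 1 with hb1
  have e0 : R 0 - Q 0 = b0 - u0 := by rw [hb0, hu0]; ring
  have e1 : R 1 - Q 1 = b1 - u1' := by rw [hb1, hu1]; ring
  rw [e0, e1] at l3 u3
  set A := u0 ^ 2 + u1' ^ 2 with hA
  set B := b0 ^ 2 + b1 ^ 2 with hB
  set C := (b0 - u0) ^ 2 + (b1 - u1') ^ 2 with hC
  have hA1 : 0.98 ≤ A := by norm_num at u1 ⊢; linarith
  have hA2 : A ≤ 1.0205 := by norm_num at l1 ⊢; linarith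
  have hB1 : 0.98 ≤ B := by norm_num at u2 ⊢; linarith
  have hB2 : B ≤ 1.0205 := by norm_num at l2 ⊢; linarith
  have hC1 : 0.98 ≤ C := by norm_num at u3 ⊢; linarith
  have hC2 : C ≤ 1.0205 := by norm_num at l3 ⊢; linarith
  have hdet : u0 * b1 - u1' * b0 ≠ 0 := by
    intro hz
    have hL : (u0 * b0 + u1' * b1) ^ 2 = A * B := by
      have : A * B = (u0 * b0 + u1' * b1) ^ 2 + (u0 * b1 - u1' * b0) ^ 2 := by
        rw [hA, hB]; ring
      rw [this, hz]; ring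
    have hdot : u0 * b0 + u1' * b1 = (A + B - C) / 2 := by
      rw [hA, hB, hC]; ring
    rw [hdot] at hL
    have hAB : 0.96 ≤ A * B := by
      have h0 : (0.98 : ℝ) * 0.98 ≤ A * B :=
        mul_le_mul hA1 hB1 (by norm_num) (le_trans (by norm_num) hA1)
      norm_num at h0 ⊢
      linarith
    have hd1 : (A + B - C) / 2 ≤ 0.54 := by norm_num at hA2 hB2 hC1 ⊢; linarith
    have hd2 : 0 ≤ (A + B - C) / 2 := by norm_num at hA1 hB1 hC2 ⊢; linarith
    have hd3 : ((A + B - C) / 2) ^ 2 ≤ 0.54 ^ 2 := pow_le_pow_left₀ hd2 hd1 2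
    rw [hL] at hd3
    have : (0.54 : ℝ) ^ 2 < 0.96 := by norm_num
    exact absurd (lt_of_le_of_lt hd3 this) (not_lt.2 hAB)
  -- combination
  set D := u0 * b1 - u1' * b0 with hD
  set c0 := R' 0 - P 0 with hc0
  set c1 := R' 1 - P 1 with hc1
  have hcomb : R' - P = ((c0 * b1 - c1 * b0) / D) • (Q - P) + ((u0 * c1 - u1' * c0) / D) • (R - P) := by
    ext k
    fin_cases k
    · simp only [Fin.zero_eta, Pi.sub_apply, Pi.add_apply, Pi.smul_apply, smul_eq_mul]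
      rw [← hu0, ← hb0, ← hc0]
      field_simp
      rw [hD]; ring
    · simp only [Fin.mk_one, Pi.sub_apply, Pi.add_apply, Pi.smul_apply, smul_eq_mul]
      rw [← hu1, ← hb1, ← hc1]
      field_simp
      rw [hD]; ring
  have hmid : N ((R - P) - (1 / 2 : ℝ) • (Q - P)) < 1 := by
    have hm := hi ((R - P) - (1 / 2 : ℝ) • (Q - P))
    simp only [Pi.sub_apply, Pi.smul_apply, smul_eq_mul] at hm
    rw [← hu0, ← hb0, ← hu1, ← hb1] at hm
    have hE : (b0 - 1 / 2 * u0) ^ 2 + (b1 - 1 / 2 * u1') ^ 2 = (2 * B + 2 * C - A) / 4 := by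
      rw [hA, hB, hC]; ring
    rw [hE] at hm
    have hlt : N ((R - P) - (1 / 2 : ℝ) • (Q - P)) ^ 2 < 1 := by
      norm_num at hA1 hB2 hC2
      linarith
    have hn := nn ((R - P) - (1 / 2 : ℝ) • (Q - P))
    by_contra hcon
    have h1' : 1 ≤ N ((R - P) - (1 / 2 : ℝ) • (Q - P)) := not_lt.1 hcon
    have h2' := one_le_pow₀ (n := 2) h1'
    exact absurd hlt (not_lt.2 h2')
  have hRQ : N ((R - P) - (Q - P)) = 1 := by
    rw [← h3]; congr 1; abel
  have hRQ' : N ((R' - P) - (Q - P)) = 1 := by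
    rw [← h5]; congr 1; abel
  have key := rhombus_comb N tri hom (Q - P) (R - P) (R' - P) h1 h2 hRQ hmid h4 hRQ'
    (fun h => hne (sub_left_injective h)) hcomb
  have : R' = (R' - P) + P := by abel
  rw [this, key]
  abel

theorem euclid_excl (tri : ∀ x y, N (x + y) ≤ N x + N y)
    (hom : ∀ (c : ℝ) x, N (c • x) = |c| * N x) (nn : ∀ x, 0 ≤ N x)
    (lo : ∀ x : Fin 2 → ℝ, (98 / 100) * (x 0 ^ 2 + x 1 ^ 2) ≤ N x ^ 2)
    (hi : ∀ x : Fin 2 → ℝ, N x ^ 2 ≤ (102 / 100) * (x 0 ^ 2 + x 1 ^ 2))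
    (φ : Fin 10 → (Fin 2 → ℝ)) (inj : Function.Injective φ)
    (hadj : ∀ u v, HG.Adj u v → N (φ u - φ v) = 1) : False := by
  have sym : ∀ x y, N (x - y) = N (y - x) := by
    intro x y
    rw [← neg_eq N hom (x - y)]
    congr 1
    abel
  have E : ∀ i j : Fin 10, (i.val, j.val) ∈ edgeL → N (φ i - φ j) = 1 :=
    fun i j h => hadj i j (HG_adj_of i j h)
  have E' : ∀ i j : Fin 10, (i.val, j.val) ∈ edgeL → N (φ j - φ i) = 1 := by
    intro i j h
    rw [sym]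
    exact E i j h
  have e01 := E' 0 1 (by decide)
  have e02 := E' 0 2 (by decide)
  have e12 := E' 1 2 (by decide)
  have e13 := E' 1 3 (by decide)
  have e23 := E' 2 3 (by decide)
  have e24 := E' 2 4 (by decide)
  have e34 := E' 3 4 (by decide)
  have e35 := E' 3 5 (by decide)
  have e45 := E' 4 5 (by decide)
  have e36 := E' 3 6 (by decide)
  have e56 := E' 5 6 (by decide)
  have e57 := E' 5 7 (by decide)
  have e67 := E' 6 7 (by decide)
  have e08 := E' 0 8 (by decide)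
  have e89 := E' 8 9 (by decide)
  have e79 := E 7 9 (by decide)
  have rh := euclid_rhombus N tri hom nn lo hi
  -- P3 from base (1,2) and 0
  have p3 : φ 3 = φ 1 + φ 2 - φ 0 :=
    rh (φ 1) (φ 2) (φ 0) (φ 3) e12 (by rw [sym]; exact e01) (by rw [sym]; exact e02) e13 e23
      (fun h => by have := inj h; revert this; decide)
  have p4 : φ 4 = φ 2 + φ 3 - φ 1 :=
    rh (φ 2) (φ 3) (φ 1) (φ 4) e23 (by rw [sym]; exact e12) (by rw [sym]; exact e13) e24 e34
      (fun h => by have := inj h; revert this; decide)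
  have p5 : φ 5 = φ 3 + φ 4 - φ 2 :=
    rh (φ 3) (φ 4) (φ 2) (φ 5) e34 (by rw [sym]; exact e23) (by rw [sym]; exact e24) e35 e45
      (fun h => by have := inj h; revert this; decide)
  have p6 : φ 6 = φ 3 + φ 5 - φ 4 :=
    rh (φ 3) (φ 5) (φ 4) (φ 6) e35 e34 (by rw [sym]; exact e45) e36 e56
      (fun h => by have := inj h; revert this; decide)
  have p7 : φ 7 = φ 5 + φ 6 - φ 3 :=
    rh (φ 5) (φ 6) (φ 3) (φ 7) e56 (by rw [sym]; exact e35) (by rw [sym]; exact e36) e57 e67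
      (fun h => by have := inj h; revert this; decide)
  set a := φ 1 - φ 0 with ha
  set b := φ 2 - φ 0 with hb
  have p7' : φ 7 - φ 0 = (2 : ℝ) • (a + b) := by
    rw [p7, p6, p5, p4, p3, ha, hb]
    module
  have hpath : N (φ 7 - φ 0) ≤ 3 := by
    have t1 := tri (φ 7 - φ 9) (φ 9 - φ 8)
    have t2 := tri (φ 7 - φ 8) (φ 8 - φ 0)
    have s1 : φ 7 - φ 9 + (φ 9 - φ 8) = φ 7 - φ 8 := by abel
    have s2 : φ 7 - φ 8 + (φ 8 - φ 0) = φ 7 - φ 0 := by abel
    rw [s1] at t1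
    rw [s2] at t2
    rw [e79, e89] at t1
    rw [e08] at t2
    linarith
  rw [p7', hom, abs_of_pos (by norm_num : (0 : ℝ) < 2)] at hpath
  have hab : N (a + b) ≤ 3 / 2 := by linarith
  have hab2 : N (a + b) ^ 2 ≤ 9 / 4 := by
    have := pow_le_pow_left₀ (nn (a + b)) hab 2
    norm_num at this ⊢
    linarith
  have l := lo (a + b)
  have ea : N a = 1 := e01
  have eb : N b = 1 := e02
  have eab : N (a - b) = 1 := by
    rw [sym, ← e12]
    congr 1
    rw [ha, hb]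
    abel
  have ua := hi a
  have ub := hi b
  have lab := lo (a - b)
  rw [ea] at ua
  rw [eb] at ub
  rw [eab] at lab
  simp only [Pi.add_apply, Pi.sub_apply] at l lab
  have key : (a 0 + b 0) ^ 2 + (a 1 + b 1) ^ 2 =
      2 * (a 0 ^ 2 + a 1 ^ 2) + 2 * (b 0 ^ 2 + b 1 ^ 2) - ((a 0 - b 0) ^ 2 + (a 1 - b 1) ^ 2) := by
    ring
  rw [key] at l
  norm_num at ua ub lab
  linarith

end near_euclid

end Pool.Agent.H783R3
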