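import Mathlib
import Pool.Agent.H783R3.ZeroOneGraph

set_option autoImplicit false

namespace Pool.Agent.H783R3

open Set

section near_sup

variable (N : (Fin 2 → ℝ) → ℝ)

theorem norm_fin2_le {x : Fin 2 → ℝ} {r : ℝ} (hr : 0 ≤ r) (h0 : |x 0| ≤ r) (h1 : |x 1| ≤ r) :
    ‖x‖ ≤ r := by
  rw [pi_norm_le_iff_of_nonneg hr]
  intro i
  fin_cases i
  · simpa using h0
  · simpa using h1

theorem inv_bd (lo : ∀ x, (999 / 1000) * ‖x‖ ≤ N x) (hi : ∀ x, N x ≤ (1001 / 1000) * ‖x‖)
    (x : Fin 2 → ℝ) (hx : ‖x‖ = 1) :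
    0 < N x ∧ 998 / 1000 ≤ (N x)⁻¹ ∧ (N x)⁻¹ ≤ 1002 / 1000 := by
  have h1 := lo x
  have h2 := hi x
  rw [hx, mul_one] at h1 h2
  have hp : 0 < N x := by linarith
  refine ⟨hp, ?_, ?_⟩
  · rw [le_inv_comm₀ (by norm_num) hp]
    refine h2.trans ?_
    norm_num
  · rw [inv_le_comm₀ hp (by norm_num)]
    refine le_trans ?_ h1
    norm_num

theorem norm_t1 {t : ℝ} (ht : |t| ≤ 1) : ‖(![t, 1] : Fin 2 → ℝ)‖ = 1 := by
  apply le_antisymm
  · exact norm_fin2_le zero_le_one (by simpa using ht) (by simp)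
  · have := norm_le_pi_norm (![t, 1] : Fin 2 → ℝ) 1
    simpa using this

theorem norm_1t {t : ℝ} (ht : |t| ≤ 1) : ‖(![1, t] : Fin 2 → ℝ)‖ = 1 := by
  apply le_antisymm
  · exact norm_fin2_le zero_le_one (by simp) (by simpa using ht)
  · have := norm_le_pi_norm (![1, t] : Fin 2 → ℝ) 0
    simpa using this

theorem unit_smul (hom : ∀ (c : ℝ) x, N (c • x) = |c| * N x) (x : Fin 2 → ℝ) (hx : 0 < N x) :
    N ((N x)⁻¹ • x) = 1 := by
  rw [hom, abs_of_pos (inv_pos.2 hx), inv_mul_cancel₀ hx.ne']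

/-- Four times the approximate first coordinates. -/
def XC : Fin 10 → ℤ := ![0, 4, 0, 4, 0, 4, 8, 8, 2, 6]

/-- Four times the approximate second coordinates. -/
def YC : Fin 10 → ℤ := ![0, 1, 4, 5, 8, 9, 6, 10, 4, 0]

theorem sepXY : ∀ i j : Fin 10, ¬ i = j → XC i ≠ XC j ∨ (i ≠ 9 ∧ j ≠ 9 ∧ YC i ≠ YC j) := by
  decide

theorem edge_mem : ∀ i j : Fin 10, (i.val, j.val) ∈ edgeL → (i, j) ∈
    ([(0,1),(0,2),(1,2),(1,3),(2,3),(2,4),(3,4),(3,5),(4,5),(3,6),(5,6),(5,7),(6,7),(0,8),(8,9),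
      (7,9)] : List (Fin 10 × Fin 10)) := by
  decide

theorem sup_incl (cont : Continuous N)
    (hom : ∀ (c : ℝ) x, N (c • x) = |c| * N x)
    (lo : ∀ x, (999 / 1000) * ‖x‖ ≤ N x) (hi : ∀ x, N x ≤ (1001 / 1000) * ‖x‖) :
    ∃ φ : Fin 10 → (Fin 2 → ℝ), Function.Injective φ ∧
      ∀ u v, HG.Adj u v → N (φ u - φ v) = 1 := by
  have sym : ∀ x y, N (x - y) = N (y - x) := by
    intro x y
    rw [← neg_eq N hom (x - y)]
    congr 1
    abel
  -- the vector a
  obtain ⟨hv0, hv1, hv2⟩ := inv_bd N lo hi ![1, 1 / 4] (norm_1t (by rw [abs_of_pos] <;> norm_num))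
  obtain ⟨a, ha⟩ : ∃ a, a = (N ![1, 1 / 4])⁻¹ • (![1, 1 / 4] : Fin 2 → ℝ) := ⟨_, rfl⟩
  have Na : N a = 1 := by rw [ha]; exact unit_smul N hom _ hv0
  have a0 : a 0 = (N ![1, 1 / 4])⁻¹ := by rw [ha]; simp
  have a1 : a 1 = (N ![1, 1 / 4])⁻¹ * (1 / 4) := by rw [ha]; simp
  have a0l : 998 / 1000 ≤ a 0 := by rw [a0]; exact hv1
  have a0u : a 0 ≤ 1002 / 1000 := by rw [a0]; exact hv2
  have a1l : 2495 / 10000 ≤ a 1 := by rw [a1]; linarith
  have a1u : a 1 ≤ 2505 / 10000 := by rw [a1]; linarith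
  -- the vector b
  have hb : ∃ t ∈ Icc (-(1 / 2) : ℝ) (1 / 2),
      N ((N ![t, 1])⁻¹ • (![t, 1] : Fin 2 → ℝ) - a) = 1 := by
    have hcont : ContinuousOn
        (fun t : ℝ => N ((N ![t, 1])⁻¹ • (![t, 1] : Fin 2 → ℝ) - a)) (Icc (-(1 / 2)) (1 / 2)) := by
      have c1 : Continuous (fun t : ℝ => (![t, 1] : Fin 2 → ℝ)) := by
        refine continuous_pi fun i => ?_
        fin_cases i
        · exact continuous_id
        · exact continuous_const
      apply cont.comp_continuousOn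
      refine ContinuousOn.sub ?_ continuousOn_const
      refine ContinuousOn.fun_smul ?_ c1.continuousOn
      refine ContinuousOn.inv₀ (cont.comp c1).continuousOn ?_
      intro t ht
      have : |t| ≤ 1 := by
        rw [abs_le]
        constructor <;> linarith [ht.1, ht.2]
      exact (inv_bd N lo hi _ (norm_t1 this)).1.ne'
    have h := intermediate_value_Icc' (by norm_num : (-(1 / 2) : ℝ) ≤ 1 / 2) hcont
    have hmem : (1 : ℝ) ∈ Icc (N ((N ![1 / 2, 1])⁻¹ • (![1 / 2, 1] : Fin 2 → ℝ) - a))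
        (N ((N ![-(1 / 2), 1])⁻¹ • (![-(1 / 2), 1] : Fin 2 → ℝ) - a)) := by
      constructor
      · obtain ⟨r0, r1, r2⟩ := inv_bd N lo hi ![1 / 2, 1]
          (norm_t1 (by rw [abs_of_pos] <;> norm_num))
        refine (hi _).trans ?_
        have : ‖(N ![1 / 2, 1])⁻¹ • (![1 / 2, 1] : Fin 2 → ℝ) - a‖ ≤ 9 / 10 := by
          apply norm_fin2_le (by norm_num)
          · simp only [Pi.sub_apply, Pi.smul_apply, Matrix.cons_val_zero, smul_eq_mul]
            rw [abs_le]
            constructor <;> linarith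
          · simp only [Pi.sub_apply, Pi.smul_apply, Matrix.cons_val_one, smul_eq_mul,
              Matrix.cons_val_fin_one]
            rw [abs_le]
            constructor <;> linarith
        linarith
      · obtain ⟨r0, r1, r2⟩ := inv_bd N lo hi ![-(1 / 2), 1]
          (norm_t1 (by rw [abs_neg, abs_of_pos] <;> norm_num))
        refine le_trans ?_ (lo _)
        have := norm_le_pi_norm ((N ![-(1 / 2), 1])⁻¹ • (![-(1 / 2), 1] : Fin 2 → ℝ) - a) 0
        simp only [Pi.sub_apply, Pi.smul_apply, Matrix.cons_val_zero, smul_eq_mul,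
          Real.norm_eq_abs] at this
        have h2 : 14 / 10 ≤ |(N ![-(1 / 2), 1])⁻¹ * -(1 / 2) - a 0| := by
          rw [le_abs]
          right
          linarith
        linarith
    obtain ⟨t, ht, hte⟩ := h hmem
    exact ⟨t, ht, hte⟩
  obtain ⟨t, ht, hNb⟩ := hb
  have ht1 : |t| ≤ 1 := by
    rw [abs_le]
    constructor <;> linarith [ht.1, ht.2]
  obtain ⟨q0, q1, q2⟩ := inv_bd N lo hi ![t, 1] (norm_t1 ht1)
  obtain ⟨b, hb⟩ : ∃ b, b = (N ![t, 1])⁻¹ • (![t, 1] : Fin 2 → ℝ) := ⟨_, rfl⟩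
  rw [← hb] at hNb
  have Nb : N b = 1 := by rw [hb]; exact unit_smul N hom _ q0
  have b0 : b 0 = (N ![t, 1])⁻¹ * t := by rw [hb]; simp
  have b1 : b 1 = (N ![t, 1])⁻¹ := by rw [hb]; simp
  have b1l : 998 / 1000 ≤ b 1 := by rw [b1]; exact q1
  have b1u : b 1 ≤ 1002 / 1000 := by rw [b1]; exact q2
  have b0u' : b 0 ≤ 501 / 1000 := by
    rw [b0]
    have := ht.2
    nlinarith
  have hnorm := hi (b - a)
  have hnorm' := lo (b - a)
  rw [hNb] at hnorm hnorm'
  have hba0 := norm_le_pi_norm (b - a) 0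
  simp only [Pi.sub_apply, Real.norm_eq_abs] at hba0
  have b0l : a 0 - 1002 / 1000 ≤ b 0 := by
    have : |b 0 - a 0| ≤ 1002 / 1000 := by linarith
    rw [abs_le] at this
    linarith [this.1]
  have b0u : b 0 ≤ a 0 - 998 / 1000 := by
    by_contra hcon
    push Not at hcon
    have : ‖b - a‖ ≤ 998 / 1000 := by
      apply norm_fin2_le (by norm_num)
      · simp only [Pi.sub_apply]
        rw [abs_le]
        constructor <;> linarith
      · simp only [Pi.sub_apply]
        rw [abs_le]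
        constructor <;> linarith
    linarith
  -- w1
  obtain ⟨s0, s1, s2⟩ := inv_bd N lo hi ![1 / 2, 1]
    (norm_t1 (by rw [abs_of_pos] <;> norm_num))
  obtain ⟨w, hw⟩ : ∃ w, w = (N ![1 / 2, 1])⁻¹ • (![1 / 2, 1] : Fin 2 → ℝ) := ⟨_, rfl⟩
  have Nw : N w = 1 := by rw [hw]; exact unit_smul N hom _ s0
  have w0 : w 0 = (N ![1 / 2, 1])⁻¹ * (1 / 2) := by rw [hw]; simp
  have w1 : w 1 = (N ![1 / 2, 1])⁻¹ := by rw [hw]; simp
  have w0l : 499 / 1000 ≤ w 0 := by rw [w0]; linarith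
  have w0u : w 0 ≤ 501 / 1000 := by rw [w0]; linarith
  have w1l : 998 / 1000 ≤ w 1 := by rw [w1]; exact s1
  have w1u : w 1 ≤ 1002 / 1000 := by rw [w1]; exact s2
  -- z = 2 (a + b), w2
  obtain ⟨z, hz⟩ : ∃ z, z = (2 : ℝ) • (a + b) := ⟨_, rfl⟩
  have z0 : z 0 = 2 * (a 0 + b 0) := by rw [hz]; simp
  have z1 : z 1 = 2 * (a 1 + b 1) := by rw [hz]; simp
  have hc : ∃ t ∈ Icc (0 : ℝ) (3 / 4),
      N (z - (w + (N ![1, t])⁻¹ • (![1, t] : Fin 2 → ℝ))) = 1 := by
    have hcont : ContinuousOn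
        (fun t : ℝ => N (z - (w + (N ![1, t])⁻¹ • (![1, t] : Fin 2 → ℝ)))) (Icc 0 (3 / 4)) := by
      have c1 : Continuous (fun t : ℝ => (![1, t] : Fin 2 → ℝ)) := by
        refine continuous_pi fun i => ?_
        fin_cases i
        · exact continuous_const
        · exact continuous_id
      apply cont.comp_continuousOn
      refine ContinuousOn.sub continuousOn_const ?_
      refine ContinuousOn.add continuousOn_const ?_
      refine ContinuousOn.fun_smul ?_ c1.continuousOn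
      refine ContinuousOn.inv₀ (cont.comp c1).continuousOn ?_
      intro t ht
      have : |t| ≤ 1 := by
        rw [abs_le]
        constructor <;> linarith [ht.1, ht.2]
      exact (inv_bd N lo hi _ (norm_1t this)).1.ne'
    have h := intermediate_value_Icc' (by norm_num : (0 : ℝ) ≤ 3 / 4) hcont
    have hmem : (1 : ℝ) ∈ Icc (N (z - (w + (N ![1, 3 / 4])⁻¹ • (![1, 3 / 4] : Fin 2 → ℝ))))
        (N (z - (w + (N ![1, 0])⁻¹ • (![1, 0] : Fin 2 → ℝ)))) := by
      constructor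
      · obtain ⟨r0, r1, r2⟩ := inv_bd N lo hi ![1, 3 / 4]
          (norm_1t (by rw [abs_of_pos] <;> norm_num))
        refine (hi _).trans ?_
        have : ‖z - (w + (N ![1, 3 / 4])⁻¹ • (![1, 3 / 4] : Fin 2 → ℝ))‖ ≤ 9 / 10 := by
          apply norm_fin2_le (by norm_num)
          · simp only [Pi.sub_apply, Pi.add_apply, Pi.smul_apply, Matrix.cons_val_zero,
              smul_eq_mul]
            rw [abs_le]
            constructor <;> linarith
          · simp only [Pi.sub_apply, Pi.add_apply, Pi.smul_apply, Matrix.cons_val_one,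
              smul_eq_mul, Matrix.cons_val_fin_one]
            rw [abs_le]
            constructor <;> linarith
        linarith
      · obtain ⟨r0, r1, r2⟩ := inv_bd N lo hi ![1, 0]
          (norm_1t (by rw [abs_zero]; norm_num))
        refine le_trans ?_ (lo _)
        have := norm_le_pi_norm (z - (w + (N ![1, 0])⁻¹ • (![1, 0] : Fin 2 → ℝ))) 1
        simp only [Pi.sub_apply, Pi.add_apply, Pi.smul_apply, Matrix.cons_val_one,
          Matrix.cons_val_fin_one, smul_eq_mul, Real.norm_eq_abs, mul_zero, add_zero] at this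
        have h2 : 14 / 10 ≤ |z 1 - w 1| := by
          rw [le_abs]
          left
          linarith
        linarith
    obtain ⟨t, ht, hte⟩ := h hmem
    exact ⟨t, ht, hte⟩
  obtain ⟨t', ht', hNx⟩ := hc
  have ht1' : |t'| ≤ 1 := by
    rw [abs_le]
    constructor <;> linarith [ht'.1, ht'.2]
  obtain ⟨p0, p1, p2⟩ := inv_bd N lo hi ![1, t'] (norm_1t ht1')
  obtain ⟨x, hx⟩ : ∃ x, x = w + (N ![1, t'])⁻¹ • (![1, t'] : Fin 2 → ℝ) := ⟨_, rfl⟩
  rw [← hx] at hNx
  have Nxw : N (x - w) = 1 := by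
    rw [hx, add_sub_cancel_left]; exact unit_smul N hom _ p0
  have x0 : x 0 = w 0 + (N ![1, t'])⁻¹ := by rw [hx]; simp
  have x0l : 149 / 100 ≤ x 0 := by rw [x0]; linarith
  have x0u : x 0 ≤ 151 / 100 := by rw [x0]; linarith
  clear hx ha hb hw hv0 hv1 hv2 q0 q1 q2 s0 s1 s2 p0 p1 p2 a0 a1 b0 b1 w0 w1 x0 hba0 hnorm hnorm'
    b0u' ht ht' ht1 ht1'
  let φ : Fin 10 → (Fin 2 → ℝ) :=
    ![0, a, b, a + b, (2 : ℝ) • b, a + (2 : ℝ) • b, (2 : ℝ) • a + b, z, w, x]
  refine ⟨φ, ?_, ?_⟩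
  · have hb0 : ∀ i : Fin 10, ((XC i : ℤ) : ℝ) - 1 / 4 ≤ 4 * φ i 0 ∧
        4 * φ i 0 ≤ ((XC i : ℤ) : ℝ) + 1 / 4 := by
      intro i
      fin_cases i <;> simp [φ, XC] <;> (try constructor) <;> linarith
    have hb1 : ∀ i : Fin 10, i ≠ 9 → ((YC i : ℤ) : ℝ) - 1 / 4 ≤ 4 * φ i 1 ∧
        4 * φ i 1 ≤ ((YC i : ℤ) : ℝ) + 1 / 4 := by
      intro i hi
      fin_cases i <;> first
        | exact absurd rfl hi
        | (simp [φ, YC] <;> (try constructor) <;> linarith)
    intro i j hij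
    by_contra hne
    rcases sepXY i j hne with h | ⟨hi, hj, h⟩
    · have q1 := hb0 i
      have q2 := hb0 j
      rw [hij] at q1
      have q3 : ((XC i : ℤ) : ℝ) - ((XC j : ℤ) : ℝ) < 1 := by linarith [q1.1, q1.2, q2.1, q2.2]
      have q4 : ((XC j : ℤ) : ℝ) - ((XC i : ℤ) : ℝ) < 1 := by linarith [q1.1, q1.2, q2.1, q2.2]
      have q5 : XC i - XC j < 1 := by exact_mod_cast q3
      have q6 : XC j - XC i < 1 := by exact_mod_cast q4
      omega
    · have q1 := hb1 i hi
      have q2 := hb1 j hj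
      rw [hij] at q1
      have q3 : ((YC i : ℤ) : ℝ) - ((YC j : ℤ) : ℝ) < 1 := by linarith [q1.1, q1.2, q2.1, q2.2]
      have q4 : ((YC j : ℤ) : ℝ) - ((YC i : ℤ) : ℝ) < 1 := by linarith [q1.1, q1.2, q2.1, q2.2]
      have q5 : YC i - YC j < 1 := by exact_mod_cast q3
      have q6 : YC j - YC i < 1 := by exact_mod_cast q4
      omega
  · have key : ∀ i j : Fin 10, (i.val, j.val) ∈ edgeL → N (φ i - φ j) = 1 := by
      have Nab : N (a - b) = 1 := by rw [sym]; exact hNb
      have e1 : N (0 - a) = 1 := by rw [zero_sub, neg_eq N hom]; exact Na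
      have e2 : N (0 - b) = 1 := by rw [zero_sub, neg_eq N hom]; exact Nb
      have e3 : N (a - (a + b)) = 1 := by
        rw [sym, add_sub_cancel_left]; exact Nb
      have e4 : N (b - (a + b)) = 1 := by
        rw [sym, add_sub_cancel_right]; exact Na
      have e5 : N (b - (2 : ℝ) • b) = 1 := by
        rw [sym, ← Nb]; congr 1; module
      have e6 : N (a + b - (2 : ℝ) • b) = 1 := by
        refine Eq.trans ?_ Nab; congr 1; module
      have e7 : N (a + b - (a + (2 : ℝ) • b)) = 1 := by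
        rw [sym, ← Nb]; congr 1; module
      have e8 : N ((2 : ℝ) • b - (a + (2 : ℝ) • b)) = 1 := by
        rw [sym, ← Na]; congr 1; module
      have e9 : N (a + b - ((2 : ℝ) • a + b)) = 1 := by
        rw [sym, ← Na]; congr 1; module
      have e10 : N (a + (2 : ℝ) • b - ((2 : ℝ) • a + b)) = 1 := by
        refine Eq.trans ?_ hNb; congr 1; module
      have e11 : N (a + (2 : ℝ) • b - z) = 1 := by
        rw [sym, ← Na, hz]; congr 1; module
      have e12 : N ((2 : ℝ) • a + b - z) = 1 := by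
        rw [sym, ← Nb, hz]; congr 1; module
      have e13 : N (0 - w) = 1 := by rw [zero_sub, neg_eq N hom]; exact Nw
      have e14 : N (w - x) = 1 := by rw [sym]; exact Nxw
      intro i j hij
      have hm := edge_mem i j hij
      simp only [List.mem_cons, List.not_mem_nil, or_false, Prod.mk.injEq] at hm
      rcases hm with h | h | h | h | h | h | h | h | h | h | h | h | h | h | h | h <;>
        obtain ⟨rfl, rfl⟩ := h
      · exact e1
      · exact e2
      · exact Nab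
      · exact e3
      · exact e4
      · exact e5
      · exact e6
      · exact e7
      · exact e8
      · exact e9
      · exact e10
      · exact e11
      · exact e12
      · exact e13
      · exact e14
      · exact hNx
    intro u v huv
    rcases HG_adj_elim huv with h | h
    · exact key u v h
    · rw [sym]; exact key v u h

end near_sup

end Pool.Agent.H783R3
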